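import Mathlib

set_option autoImplicit false

namespace Pool.Agent.Results.MP_3e19fa_lc.TwoHoleCycle

/-- The utility of agent `i` when the agents `A` (with types `τ : A → T`) are placed on the nodes of
`G` by `σ`: the number of types, other than the type of `i`, that occur among the agents occupying
neighbours of the node of `i`. -/
noncomputable def utility {V A T : Type} (G : SimpleGraph V) (τ : A → T) (σ : A → V) (i : A) : ℕ :=
  Set.ncard {t : T | t ≠ τ i ∧ ∃ j : A, τ j = t ∧ G.Adj (σ i) (σ j)}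

/-- `σ'` arises from `σ` by an improving jump of one agent `i`: all other agents stay where they
are, the new node of `i` is empty in `σ`, and the utility of `i` strictly increases. -/
def ImprovingJump {V A T : Type} (G : SimpleGraph V) (τ : A → T) (σ σ' : A → V) : Prop :=
  ∃ i : A, (∀ j : A, j ≠ i → σ' j = σ j) ∧ (∀ j : A, σ j ≠ σ' i) ∧
    utility G τ σ i < utility G τ σ' i

/-- The game has an improving response cycle: assignments (injective placements)
`s 0, s 1, ..., s m = s 0` with `m ≥ 1`, each arising from the preceding one by an improving jump. -/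
def HasImprovingResponseCycle {V A T : Type} (G : SimpleGraph V) (τ : A → T) : Prop :=
  ∃ (m : ℕ) (s : ℕ → A → V), 1 ≤ m ∧ (∀ j : ℕ, Function.Injective (s j)) ∧ s m = s 0 ∧
    ∀ j : ℕ, j < m → ImprovingJump G τ (s j) (s (j + 1))

/-- adjacency table of the base graph on eight nodes -/
def edges : List (Fin 8 × Fin 8) :=
  [(0,1),(0,2),(0,3),(1,5),(1,6),(2,3),(2,4),(2,5),(3,6),(3,7),(4,5),(4,7),(5,6),(6,7)]

/-- boolean adjacency of the base graph -/
def adjB (a b : Fin 8) : Bool := edges.contains (a, b) || edges.contains (b, a)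

/-- types of the six base agents -/
def ty : Fin 6 → Fin 3 := ![0, 0, 1, 1, 2, 2]

/-- the 24 assignments of the base cycle -/
def tab : Fin 24 → Fin 6 → Fin 8 :=
  ![![0,2,1,3,4,5], ![7,2,1,3,4,5], ![7,2,1,6,4,5], ![7,2,1,6,0,5], ![7,3,1,6,0,5],
    ![7,3,4,6,0,5], ![7,3,4,6,0,2], ![1,3,4,6,0,2], ![1,3,4,5,0,2], ![1,3,4,5,7,2],
    ![1,6,4,5,7,2], ![1,6,0,5,7,2], ![1,6,0,5,7,3], ![4,6,0,5,7,3], ![4,6,0,2,7,3],
    ![4,6,0,2,1,3], ![4,5,0,2,1,3], ![4,5,7,2,1,3], ![4,5,7,2,1,6], ![0,5,7,2,1,6],
    ![0,5,7,3,1,6], ![0,5,7,3,4,6], ![0,2,7,3,4,6], ![0,2,1,3,4,6]]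

/-- the agent moving at each step -/
def mover : Fin 24 → Fin 6 :=
  ![0, 3, 4, 1, 2, 5, 0, 3, 4, 1, 2, 5, 0, 3, 4, 1, 2, 5, 0, 3, 4, 1, 2, 5]

/-- base utility, computably -/
def util (σ : Fin 6 → Fin 8) (i : Fin 6) : ℕ :=
  ((Finset.univ : Finset (Fin 3)).filter
    (fun t => t ≠ ty i ∧ ∃ j, ty j = t ∧ adjB (σ i) (σ j) = true)).card

theorem step_ok : ∀ j : Fin 24,
    (∀ a : Fin 6, a ≠ mover j → tab (j + 1) a = tab j a) ∧
    (∀ a : Fin 6, tab j a ≠ tab (j + 1) (mover j)) ∧
    util (tab j) (mover j) < util (tab (j + 1)) (mover j) := by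
  decide +kernel

theorem inj_ok : ∀ j : Fin 24, ∀ a b : Fin 6, tab j a = tab j b → a = b := by
  decide +kernel

theorem adjB_symm : ∀ a b : Fin 8, adjB a b = true → adjB b a = true := by
  decide +kernel

theorem adjB_irrefl : ∀ a : Fin 8, ¬ adjB a a = true := by
  decide +kernel

/-- The graph on `8 + r` nodes: the base graph together with `r` extra nodes, each adjacent exactly
to the eight base nodes. -/
def bigG (r : ℕ) : SimpleGraph (Fin 8 ⊕ Fin r) where
  Adj x y := match x, y with
    | Sum.inl a, Sum.inl b => adjB a b = true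
    | Sum.inl _, Sum.inr _ => True
    | Sum.inr _, Sum.inl _ => True
    | Sum.inr _, Sum.inr _ => False
  symm := ⟨by
    rintro (a | a) (b | b) h
    · exact adjB_symm a b h
    · trivial
    · trivial
    · exact h⟩
  loopless := ⟨by
    rintro (a | a) h
    · exact adjB_irrefl a h
    · exact h⟩

/-- The types of the `6 + r` agents: six base agents with two of each of the types `0, 1, 2`, and
one agent of each further type. -/
def bigTy (r : ℕ) : Fin 6 ⊕ Fin r → Fin (3 + r) := fun x => finSumFinEquiv (Sum.map ty id x)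

theorem utility_big (r : ℕ) (σ : Fin 6 → Fin 8) (i : Fin 6) :
    utility (bigG r) (bigTy r) (Sum.map σ id) (Sum.inl i) = util σ i + r := by
  classical
  unfold utility
  have hset : {t : Fin (3 + r) | t ≠ bigTy r (Sum.inl i) ∧ ∃ j : Fin 6 ⊕ Fin r, bigTy r j = t ∧
      (bigG r).Adj (Sum.map σ id (Sum.inl i)) (Sum.map σ id j)} =
      (finSumFinEquiv : Fin 3 ⊕ Fin r ≃ Fin (3 + r)) ''
        (Sum.inl '' (((Finset.univ : Finset (Fin 3)).filter
          (fun t => t ≠ ty i ∧ ∃ j, ty j = t ∧ adjB (σ i) (σ j) = true) : Finset (Fin 3)) :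
            Set (Fin 3)) ∪ Set.range Sum.inr) := by
    ext t
    obtain ⟨u, rfl⟩ := (finSumFinEquiv : Fin 3 ⊕ Fin r ≃ Fin (3 + r)).surjective t
    rw [(finSumFinEquiv : Fin 3 ⊕ Fin r ≃ Fin (3 + r)).injective.mem_set_image]
    constructor
    · rintro ⟨h1, j, h2, h3⟩
      have h2' : Sum.map ty id j = u := finSumFinEquiv.injective h2
      rcases j with j | j
      · left
        refine ⟨ty j, ?_, h2'⟩
        simp only [Finset.coe_filter, Finset.mem_univ, true_and, Set.mem_ofPred_eq]
        refine ⟨?_, j, rfl, h3⟩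
        intro hc
        apply h1
        rw [← h2']
        show finSumFinEquiv (Sum.inl (ty j)) = finSumFinEquiv (Sum.inl (ty i))
        rw [hc]
      · right
        exact ⟨j, h2'⟩
    · rintro (⟨t, ht, rfl⟩ | ⟨c, rfl⟩)
      · simp only [Finset.coe_filter, Finset.mem_univ, true_and, Set.mem_ofPred_eq] at ht
        obtain ⟨h1, j, h2, h3⟩ := ht
        refine ⟨?_, Sum.inl j, ?_, h3⟩
        · intro hc
          have : (Sum.inl t : Fin 3 ⊕ Fin r) = Sum.inl (ty i) := finSumFinEquiv.injective hc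
          exact h1 (Sum.inl_injective this)
        · show finSumFinEquiv (Sum.inl (ty j)) = finSumFinEquiv (Sum.inl t)
          rw [h2]
      · refine ⟨?_, Sum.inr c, rfl, trivial⟩
        intro hc
        have : (Sum.inr c : Fin 3 ⊕ Fin r) = Sum.inl (ty i) := finSumFinEquiv.injective hc
        cases this
  rw [hset, Set.ncard_image_of_injective _ finSumFinEquiv.injective, Set.ncard_union_eq,
    Set.ncard_image_of_injective _ Sum.inl_injective, Set.ncard_coe_finset]
  · rw [← Set.image_univ, Set.ncard_image_of_injective _ Sum.inr_injective, Set.ncard_univ,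
      Nat.card_eq_fintype_card, Fintype.card_fin]
    rfl
  · rw [Set.disjoint_left]
    rintro _ ⟨t, _, rfl⟩ ⟨c, hc⟩
    cases hc

theorem base_connected_aux : ∀ a : Fin 8, a = 0 ∨ adjB 0 a = true ∨
    (∃ b : Fin 8, adjB 0 b = true ∧ adjB b a = true) ∨
    (∃ b c : Fin 8, adjB 0 b = true ∧ adjB b c = true ∧ adjB c a = true) := by
  decide +kernel

theorem big_connected (r : ℕ) : (bigG r).Connected := by
  have key : ∀ x : Fin 8 ⊕ Fin r, (bigG r).Reachable (Sum.inl 0) x := by
    have e : ∀ a b : Fin 8, adjB a b = true → (bigG r).Reachable (Sum.inl a) (Sum.inl b) := by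
      intro a b h
      exact SimpleGraph.Adj.reachable (by exact h)
    rintro (a | a)
    · rcases base_connected_aux a with h | h | ⟨b, h1, h2⟩ | ⟨b, c, h1, h2, h3⟩
      · rw [h]
      · exact e _ _ h
      · exact (e _ _ h1).trans (e _ _ h2)
      · exact ((e _ _ h1).trans (e _ _ h2)).trans (e _ _ h3)
    · exact SimpleGraph.Adj.reachable (by trivial)
  have : Nonempty (Fin 8 ⊕ Fin r) := ⟨Sum.inl 0⟩
  exact ⟨fun x y => (key x).symm.trans (key y)⟩

theorem bigTy_surjective (r : ℕ) : Function.Surjective (bigTy r) := by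
  intro t
  obtain ⟨u, rfl⟩ := (finSumFinEquiv : Fin 3 ⊕ Fin r ≃ Fin (3 + r)).surjective t
  rcases u with u | u
  · have : ∃ j, ty j = u := by revert u; decide +kernel
    obtain ⟨j, hj⟩ := this
    exact ⟨Sum.inl j, by show finSumFinEquiv (Sum.inl (ty j)) = _; rw [hj]⟩
  · exact ⟨Sum.inr u, rfl⟩

theorem big_cycle (r : ℕ) : HasImprovingResponseCycle (bigG r) (bigTy r) := by
  refine ⟨24, fun j => Sum.map (tab (Fin.ofNat 24 j)) id, by norm_num, ?_, rfl, ?_⟩
  · intro j
    rintro (a | a) (b | b) h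
    · have h' : tab (Fin.ofNat 24 j) a = tab (Fin.ofNat 24 j) b := Sum.inl_injective h
      rw [inj_ok _ a b h']
    · cases h
    · cases h
    · have h' : a = b := Sum.inr_injective h
      rw [h']
  · intro j hj
    have hs : (Fin.ofNat 24 (j + 1)) = Fin.ofNat 24 j + 1 := by
      apply Fin.ext
      simp [Fin.val_add, Fin.ofNat]
    obtain ⟨h1, h2, h3⟩ := step_ok (Fin.ofNat 24 j)
    refine ⟨Sum.inl (mover (Fin.ofNat 24 j)), ?_, ?_, ?_⟩
    · rintro (a | a) ha
      · have : a ≠ mover (Fin.ofNat 24 j) := fun h => ha (by rw [h])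
        show Sum.inl (tab (Fin.ofNat 24 (j + 1)) a) = Sum.inl (tab (Fin.ofNat 24 j) a)
        rw [hs, h1 a this]
      · rfl
    · rintro (a | a) h
      · have h' : tab (Fin.ofNat 24 j) a = tab (Fin.ofNat 24 (j + 1)) (mover (Fin.ofNat 24 j)) :=
          Sum.inl_injective h
        rw [hs] at h'
        exact h2 a h'
      · cases h
    · rw [utility_big, utility_big, hs]
      exact Nat.add_lt_add_right h3 r

/-- For every number `k ≥ 3` of types there is a variety-seeking jump game with exactly two empty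
nodes, on a connected graph, that admits an improving response cycle. -/
theorem result (k : ℕ) (hk : 3 ≤ k) :
    ∃ (V A : Type) (_ : Fintype V) (_ : Fintype A) (G : SimpleGraph V) (τ : A → Fin k),
      Fintype.card V = Fintype.card A + 2 ∧ G.Connected ∧ Function.Surjective τ ∧
      HasImprovingResponseCycle G τ := by
  obtain ⟨r, rfl⟩ := Nat.exists_eq_add_of_le hk
  refine ⟨Fin 8 ⊕ Fin r, Fin 6 ⊕ Fin r, inferInstance, inferInstance, bigG r, bigTy r, ?_,
    big_connected r, bigTy_surjective r, big_cycle r⟩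
  simp only [Fintype.card_sum, Fintype.card_fin]
  omega

end Pool.Agent.Results.MP_3e19fa_lc.TwoHoleCycle
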